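import Pool.Agent.N110.IM.Img
import Pool.Agent.N110.IM.Log
import Pool.Agent.N110.SE.Fin
import Pool.Agent.N110.Log
import Pool.Agent.N110.RK.Stat
import Pool.Agent.N110.NV.Fin
import Pool.Agent.R887.Exc

/-!
Klt and log canonical pairs whose open part is dominated by an open variety with commuting dominant
self-maps, invertible or not: a bound for the numerical dimension, and the numerical dimension zero
if the growth rank is maximal.
-/

set_option autoImplicit false

open FF Pool.Agent.W602.GT Pool.Agent.Y172 Pool.Agent.R887 Pool.Agent.N110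

/-- Let `X'` be a normal projective variety of dimension `n ≥ 1`, with generic point `y'`, and `D'` a
reduced divisor on `X'` such that `(X', D')` is log canonical, the open part `V' = X' \ D'` has
canonical singularities (it is smooth, for instance) and `K_X' + D'` is nef. Let `ℕ ^ r` act on `X'`
by dominant rational self-maps `f_a` (commuting dominant rational self-maps `f_1, ..., f_r`,
invertible or not), given by the endomorphisms `φ a = f_a^*` of the function field, which map no
prime divisor of `V'` into `D'` (dominant morphisms from `V'` to `V'`, for instance). Let `s ≥ 1` be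
at most the growth rank: for `u` in `ℤ ^ r` with positive part `a` and negative part `b` the degree
`D(u)` of the correspondence `f_a ∘ f_b⁻¹` is `f_a^* H · (f_b^* H) ^ (n - 1) / deg f_b`, and `D`
grows subexponentially only along linear subspaces of `ℝ ^ r` of codimension at least `s`. For
instance `s = r` if `max (D(u), D(-u)) ≥ c exp (δ |u|)` for some `c, δ > 0`.

Let `(X, D)` be a log canonical (for instance klt) pair such that the open part `V = X \ Supp D` has
canonical singularities, and let the homomorphism `π` of the function fields give a dominant rational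
map `X' ⇢ X`, generically finite, which maps no prime divisor of `V'` into `Supp D` (for instance a
dominant morphism from `V'` to `V`). The map has nothing to do with the maps `f_a`, and `K_X + D` is
not assumed to be nef. Then `s ≤ n`, the numerical dimension of `K_X + D` is at most `n - s`, and so
is the Kodaira dimension; if the Kodaira dimension is at least `n - s` then the Kodaira dimension and
the numerical dimension of `K_X + D` are equal. For `s = n` the numerical dimension of `K_X + D` is at
most zero; if `K_X + D` is pseudo-effective and the irregularity of `X` is zero then some multiple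
`m (K_X + D)`, `m ≥ 1`, has a section `ω ≠ 0`, the Kodaira dimension is zero and so is the numerical
dimension which is defined by the growth of the number of the sections of `m (K_X + D) + A`. -/
theorem Pool.Agent.Results.MP_d0da95_ag.LogCoveredCommuting.result
    {K K' : Type} [Field K] [Algebra ℂ K] [Field K'] [Algebra ℂ K'] {N N' n : ℕ}
    {y : Fin (N + 1) → K} {y' : Fin (N' + 1) → K'} (hy : NormalModel y) (hy' : NormalModel y')
    (hn : Algebra.trdeg ℂ K = n) (hn' : Algebra.trdeg ℂ K' = n) (hn0 : 0 < n)
    {D' : Place ℂ K' → ℚ} (hD' : Effective y' D')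
    (hred' : ∀ P, IsPrimeDivisor y' P → D' P = 0 ∨ D' P = 1) (hlc' : LogCanonical y' n D')
    (hcan' : CanonicalOff y' n D') (hnef' : LogNef y' n D') {r s : ℕ} (hs : 0 < s)
    {φ : (Fin r → ℕ) → (K' →ₐ[ℂ] K')} (hφ : ∀ u v, φ (u + v) = φ u * φ v)
    (hV : ∀ v, PreservesOpen (φ v) y' D')
    (hrank : SE.CorrRankGe φ y' n s ∨ (s = r ∧ SE.CorrExpGrowth φ y' n))
    {D : Place ℂ K → ℚ} (hD : Effective y D) (hlc : LogCanonical y n D)
    (hcan : CanonicalOff y n D) (π : K →ₐ[ℂ] K') (hπ : IM.MapsOpen π y D y' D') :
    s ≤ n ∧ NumDimLt y n D (n - s + 1) ∧ ¬ KappaGe y n D (n - s + 1) ∧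
      (KappaGe y n D (n - s) → Abundant y n D) ∧
      (s = n → LogPsef y n D → IrregularityZero y →
        (∃ m : ℕ, 1 ≤ m ∧ ∃ ω : (Fin n → Derivation ℂ K K) → K, ω ≠ 0 ∧
          IsSection y n m (m • D) ω) ∧
        kodairaDim y n D = ((0 : ℕ) : WithBot ℕ) ∧
        ∀ A, Effective y A → Integral y A → numericalDim y n D A = ((0 : ℕ) : EReal)) := by
  have hrank' : SE.CorrRankGe φ y' n s := by
    rcases hrank with h | ⟨rfl, h⟩
    · exact h
    · exact SE.corrRank_of_exp h
  obtain ⟨h1, h2'⟩ := SE.semi_main SE.stmSJ SE.stmSG SE.stmSD hy' hn' hn0 hD'.2 hnef' hs hφ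
    (fun v => selfPullLe_log hy' hn' hred' hlc' hcan' (hV v)) hrank'
  have hle : n - s + 1 ≤ n := by omega
  have h2 := IM.numDimLt_img hy hy' hn hn' π
    (IM.imagePullLe_log hy hy' hn hn' hred' hlc hcan hπ) hle h2'
  refine ⟨h1, h2, ?_, fun h => ⟨n - s, h, h2⟩, ?_⟩
  · rintro ⟨m, hm, ω, E, hω, h0, hind⟩
    exact kappa_lt hy hn hle h2 hm hω h0 hind
  · intro h3 hpsef hq
    rw [show n - s + 1 = 1 by omega] at h2
    obtain ⟨m, hm, ω, hω0, hω⟩ := NV.nonvanishing hy hn hn0 hD.2 hpsef h2 hq
    exact ⟨⟨m, hm, ω, hω0, hω⟩, abundance_zero hy hn hn0 hD h2 hm hω hω0⟩
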