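import Pool.Agent.N110.IM.Img
import Pool.Agent.N110.IM.Log
import Pool.Agent.N110.QPlateau
import Pool.Agent.N110.RK.Stat
import Pool.Agent.N110.NV.Fin
import Pool.Agent.R887.Exc

/-!
Klt and log canonical pairs whose open part is dominated by an open variety with dominant
self-maps, invertible or not, whose greatest dynamical degree is not attained at several consecutive
indices.
-/

set_option autoImplicit false

open FF Pool.Agent.W602.GT Pool.Agent.Y172 Pool.Agent.R887 Pool.Agent.N110

/-- Let `X'` be a normal projective variety of dimension `n ≥ 1`, with generic point `y'`, and `D'` a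
reduced divisor on `X'` such that `(X', D')` is log canonical, the open part `V' = X' \ D'` has
canonical singularities (it is smooth, for instance) and `K_X' + D'` is nef. Let `S` be a set of
dominant rational self-maps `f` of `X'`, invertible or not, of bounded degrees (a single map, for
instance), given by the endomorphisms `φ = f^*` of the function field, which map no prime divisor of
`V'` into `D'` (dominant morphisms from `V'` to `V'`, for instance). Suppose that the greatest of the
joint dynamical degrees `λ 0, ..., λ n` of `S` (the dynamical degrees of `f`, if `S = {f}`) is not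
attained at `ν + 1` consecutive indices.

Let `(X, D)` be a log canonical (for instance klt) pair such that the open part `V = X \ Supp D` has
canonical singularities, and let the homomorphism `π` of the function fields give a dominant rational
map `X' ⇢ X`, generically finite, which maps no prime divisor of `V'` into `Supp D` (for instance a
dominant morphism from `V'` to `V`). The map has nothing to do with the maps in `S`, and `K_X + D` is
not assumed to be nef. Then the numerical dimension of `K_X + D` is less than `ν`, and so is the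
Kodaira dimension; if the Kodaira dimension is at least `ν - 1`, then the Kodaira dimension and the
numerical dimension of `K_X + D` are equal. If `ν = 1`, `K_X + D` is pseudo-effective and the
irregularity of `X` is zero, then some multiple `m (K_X + D)`, `m ≥ 1`, has a section `ω ≠ 0`, the
Kodaira dimension is zero and so is the numerical dimension which is defined by the growth of the
number of the sections of `m (K_X + D) + A`. -/
theorem Pool.Agent.Results.MP_d0da95_ag.LogCoveredSelfMaps.result
    {K K' : Type} [Field K] [Algebra ℂ K] [Field K'] [Algebra ℂ K'] {N N' n : ℕ}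
    {y : Fin (N + 1) → K} {y' : Fin (N' + 1) → K'} (hy : NormalModel y) (hy' : NormalModel y')
    (hn : Algebra.trdeg ℂ K = n) (hn' : Algebra.trdeg ℂ K' = n) (hn0 : 0 < n)
    {D' : Place ℂ K' → ℚ} (hD' : Effective y' D')
    (hred' : ∀ P, IsPrimeDivisor y' P → D' P = 0 ∨ D' P = 1) (hlc' : LogCanonical y' n D')
    (hcan' : CanonicalOff y' n D') (hnef' : LogNef y' n D') {S : Set (K' →ₐ[ℂ] K')}
    (hS : ∀ φ ∈ S, PreservesOpen φ y' D') {C : ℕ} (hC : ∀ φ ∈ S, selfDegree φ y' n 1 ≤ C)
    {ν : ℕ} (hν : ν ≤ n)
    (hdeg : ∀ j, j + ν ≤ n → ∃ a ≤ ν, ∃ p ≤ n,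
      selfJointDegree S y' n (j + a) < selfJointDegree S y' n p)
    {D : Place ℂ K → ℚ} (hD : Effective y D) (hlc : LogCanonical y n D)
    (hcan : CanonicalOff y n D) (π : K →ₐ[ℂ] K') (hπ : IM.MapsOpen π y D y' D') :
    NumDimLt y n D ν ∧ ¬ KappaGe y n D ν ∧ (1 ≤ ν → KappaGe y n D (ν - 1) → Abundant y n D) ∧
      (ν = 1 → LogPsef y n D → IrregularityZero y →
        (∃ m : ℕ, 1 ≤ m ∧ ∃ ω : (Fin n → Derivation ℂ K K) → K, ω ≠ 0 ∧
          IsSection y n m (m • D) ω) ∧
        kodairaDim y n D = ((0 : ℕ) : WithBot ℕ) ∧
        ∀ A, Effective y A → Integral y A → numericalDim y n D A = ((0 : ℕ) : EReal)) := by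
  have key : NumDimLt y' n D' ν := by
    by_contra hnum
    obtain ⟨j, hj, h4⟩ := splateau hy' hn' hD'.2 hnef'
      (fun φ hφ => selfPullLe_log hy' hn' hred' hlc' hcan' (hS φ hφ)) hC hν hnum
    obtain ⟨a, ha, p, hp, hlt⟩ := hdeg j hj
    exact absurd hlt (not_lt.2 (h4 a ha p hp))
  have h1 := IM.numDimLt_img hy hy' hn hn' π
    (IM.imagePullLe_log hy hy' hn hn' hred' hlc hcan hπ) hν key
  refine ⟨h1, ?_, fun h2 h3 => ⟨ν - 1, h3, ?_⟩, ?_⟩
  · rintro ⟨m, hm, ω, E, hω, h0, hind⟩
    exact kappa_lt hy hn hν h1 hm hω h0 hind
  · rwa [show ν - 1 + 1 = ν by omega]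
  · rintro rfl hpsef hq
    obtain ⟨m, hm, ω, hω0, hω⟩ := NV.nonvanishing hy hn hn0 hD.2 hpsef h1 hq
    exact ⟨⟨m, hm, ω, hω0, hω⟩, abundance_zero hy hn hn0 hD h1 hm hω hω0⟩
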